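import Mathlib

/-!
# LM, the Lie algebra of the Zariski closure of a group of automorphisms

`V` is a finite dimensional vector space over `ℂ`.
-/

set_option autoImplicit false

open Module

namespace Pool.Agent.Helper68.LM

section defs

variable (V : Type*) [AddCommGroup V] [Module ℂ V]

/-- The polynomial functions on `End V`: the algebra generated by the linear functionals. -/
def polyFun : Subalgebra ℂ (Module.End ℂ V → ℂ) :=
  Algebra.adjoin ℂ (Set.range fun (l : Module.Dual ℂ (Module.End ℂ V)) (g : Module.End ℂ V) => l g)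

end defs

section D

variable {V : Type*} [AddCommGroup V] [Module ℂ V]

/-- The derivative of a function on `End V` at `g` in the direction `g * X`. -/
noncomputable def D (X : Module.End ℂ V) (f : Module.End ℂ V → ℂ) (g : Module.End ℂ V) : ℂ :=
  deriv (fun t : ℂ => f (g + t • (g * X))) 0

theorem lin_mem (l : Module.Dual ℂ (Module.End ℂ V)) :
    (fun g : Module.End ℂ V => l g) ∈ polyFun V :=
  Algebra.subset_adjoin ⟨l, rfl⟩

theorem const_mem (c : ℂ) : (fun _ : Module.End ℂ V => c) ∈ polyFun V :=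
  (polyFun V).algebraMap_mem c

theorem differentiableAt_of_mem {f : Module.End ℂ V → ℂ} (hf : f ∈ polyFun V)
    (g X : Module.End ℂ V) : DifferentiableAt ℂ (fun t : ℂ => f (g + t • X)) 0 := by
  induction hf using Algebra.adjoin_induction with
  | mem f hf =>
    obtain ⟨l, rfl⟩ := hf
    simp only [map_add, map_smul, smul_eq_mul]
    fun_prop
  | algebraMap c => exact differentiableAt_const _
  | add f h _ _ h1 h2 => exact h1.add h2
  | mul f h _ _ h1 h2 => exact h1.mul h2

theorem D_lin (X : Module.End ℂ V) (l : Module.Dual ℂ (Module.End ℂ V)) :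
    D X (fun g : Module.End ℂ V => l g) = fun g => l (g * X) := by
  funext g
  unfold D
  simp only [map_add, map_smul, smul_eq_mul]
  rw [deriv_const_add]
  simp

theorem D_const (X : Module.End ℂ V) (c : ℂ) :
    D X (fun _ : Module.End ℂ V => c) = fun _ => 0 := by
  funext g
  unfold D
  simp

theorem D_add (X : Module.End ℂ V) {f h : Module.End ℂ V → ℂ} (hf : f ∈ polyFun V)
    (hh : h ∈ polyFun V) : D X (f + h) = D X f + D X h := by
  funext g
  exact deriv_add (differentiableAt_of_mem hf g _) (differentiableAt_of_mem hh g _)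

theorem D_mul (X : Module.End ℂ V) {f h : Module.End ℂ V → ℂ} (hf : f ∈ polyFun V)
    (hh : h ∈ polyFun V) : D X (f * h) = D X f * h + f * D X h := by
  funext g
  have h1 := deriv_mul (differentiableAt_of_mem hf g (g * X))
    (differentiableAt_of_mem hh g (g * X))
  simp only [zero_smul, add_zero] at h1
  exact h1

theorem D_mem (X : Module.End ℂ V) {f : Module.End ℂ V → ℂ} (hf : f ∈ polyFun V) :
    D X f ∈ polyFun V := by
  induction hf using Algebra.adjoin_induction with
  | mem f hf =>
    obtain ⟨l, rfl⟩ := hf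
    rw [D_lin]
    exact lin_mem (l.comp (LinearMap.mulRight ℂ X))
  | algebraMap c =>
    have : D X (fun _ : Module.End ℂ V => c) ∈ polyFun V := by
      rw [D_const]
      exact const_mem 0
    exact this
  | add f h hf hh h1 h2 =>
    rw [D_add X hf hh]
    exact add_mem h1 h2
  | mul f h hf hh h1 h2 =>
    rw [D_mul X hf hh]
    exact add_mem (mul_mem h1 hh) (mul_mem hf h2)

theorem D_bracket (X Y : Module.End ℂ V) {f : Module.End ℂ V → ℂ} (hf : f ∈ polyFun V) :
    D X (D Y f) - D Y (D X f) = D (X * Y - Y * X) f := by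
  induction hf using Algebra.adjoin_induction with
  | mem f hf =>
    obtain ⟨l, rfl⟩ := hf
    rw [D_lin, D_lin, D_lin]
    have e1 : D X (fun g : Module.End ℂ V => l (g * Y)) = fun g => l (g * X * Y) :=
      D_lin X (l.comp (LinearMap.mulRight ℂ Y))
    have e2 : D Y (fun g : Module.End ℂ V => l (g * X)) = fun g => l (g * Y * X) :=
      D_lin Y (l.comp (LinearMap.mulRight ℂ X))
    rw [e1, e2]
    funext g
    rw [Pi.sub_apply, ← map_sub, mul_sub, mul_assoc, mul_assoc]
  | algebraMap c =>
    have h0 : ∀ Z : Module.End ℂ V, D Z (fun _ : Module.End ℂ V => c) = fun _ => 0 :=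
      fun Z => D_const Z c
    have h1 : ∀ Z : Module.End ℂ V, D Z (fun _ : Module.End ℂ V => (0 : ℂ)) = fun _ => 0 :=
      fun Z => D_const Z 0
    change D X (D Y (fun _ => c)) - D Y (D X (fun _ => c)) = D (X * Y - Y * X) (fun _ => c)
    rw [h0, h0, h0, h1, h1]
    exact sub_self _
  | add f h hf hh h1 h2 =>
    rw [D_add Y hf hh, D_add X hf hh, D_add _ hf hh, D_add X (D_mem Y hf) (D_mem Y hh),
      D_add Y (D_mem X hf) (D_mem X hh), ← h1, ← h2]
    ring
  | mul f h hf hh h1 h2 =>
    rw [D_mul Y hf hh, D_mul X hf hh, D_mul _ hf hh,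
      D_add X (mul_mem (D_mem Y hf) hh) (mul_mem hf (D_mem Y hh)),
      D_add Y (mul_mem (D_mem X hf) hh) (mul_mem hf (D_mem X hh)),
      D_mul X (D_mem Y hf) hh, D_mul X hf (D_mem Y hh), D_mul Y (D_mem X hf) hh,
      D_mul Y hf (D_mem X hh), ← h1, ← h2]
    ring

theorem D_add_left (X Y : Module.End ℂ V) {f : Module.End ℂ V → ℂ} (hf : f ∈ polyFun V) :
    D (X + Y) f = D X f + D Y f := by
  induction hf using Algebra.adjoin_induction with
  | mem f hf =>
    obtain ⟨l, rfl⟩ := hf
    rw [D_lin, D_lin, D_lin]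
    funext g
    rw [Pi.add_apply, ← map_add, mul_add]
  | algebraMap c =>
    have h0 : ∀ Z : Module.End ℂ V, D Z (fun _ : Module.End ℂ V => c) = fun _ => 0 :=
      fun Z => D_const Z c
    change D (X + Y) (fun _ => c) = D X (fun _ => c) + D Y (fun _ => c)
    rw [h0, h0, h0]
    exact (add_zero _).symm
  | add f h hf hh h1 h2 =>
    rw [D_add _ hf hh, D_add _ hf hh, D_add _ hf hh, h1, h2]
    ring
  | mul f h hf hh h1 h2 =>
    rw [D_mul _ hf hh, D_mul _ hf hh, D_mul _ hf hh, h1, h2]
    ring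

theorem D_smul_left (c : ℂ) (X : Module.End ℂ V) {f : Module.End ℂ V → ℂ}
    (hf : f ∈ polyFun V) : D (c • X) f = c • D X f := by
  induction hf using Algebra.adjoin_induction with
  | mem f hf =>
    obtain ⟨l, rfl⟩ := hf
    rw [D_lin, D_lin]
    funext g
    rw [Pi.smul_apply, ← map_smul, mul_smul_comm]
  | algebraMap a =>
    have h0 : ∀ Z : Module.End ℂ V, D Z (fun _ : Module.End ℂ V => a) = fun _ => 0 :=
      fun Z => D_const Z a
    change D (c • X) (fun _ => a) = c • D X (fun _ => a)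
    rw [h0, h0]
    exact (smul_zero c).symm
  | add f h hf hh h1 h2 =>
    rw [D_add _ hf hh, D_add _ hf hh, h1, h2, smul_add]
  | mul f h hf hh h1 h2 =>
    rw [D_mul _ hf hh, D_mul _ hf hh, h1, h2, smul_add, smul_mul_assoc, mul_smul_comm]

theorem D_one (X : Module.End ℂ V) (f : Module.End ℂ V → ℂ) :
    D X f 1 = deriv (fun t : ℂ => f (1 + t • X)) 0 := by
  unfold D
  simp only [one_mul]

/-- The tangent space at the identity of the Zariski closure of a group of automorphisms of `V`:
the operators `X` such that every polynomial function `f` on `End V` which vanishes on the group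
has derivative zero at the identity in the direction `X`. -/
noncomputable def lieZar (G : Subgroup (Module.End ℂ V)ˣ) : Submodule ℂ (Module.End ℂ V) where
  carrier := {X | ∀ f ∈ polyFun V, (∀ g ∈ G, f (g : Module.End ℂ V) = 0) →
    deriv (fun t : ℂ => f (1 + t • X)) 0 = 0}
  add_mem' := by
    intro X Y hX hY f hf h0
    have h1 := hX f hf h0
    have h2 := hY f hf h0
    rw [← D_one] at h1 h2 ⊢
    rw [D_add_left X Y hf, Pi.add_apply, h1, h2, add_zero]
  zero_mem' := by
    intro f hf h0
    simp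
  smul_mem' := by
    intro c X hX f hf h0
    have h1 := hX f hf h0
    rw [← D_one] at h1 ⊢
    rw [D_smul_left c X hf, Pi.smul_apply, h1, smul_zero]

theorem mem_lieZar {G : Subgroup (Module.End ℂ V)ˣ} {X : Module.End ℂ V} :
    X ∈ lieZar G ↔ ∀ f ∈ polyFun V, (∀ g ∈ G, f (g : Module.End ℂ V) = 0) →
      deriv (fun t : ℂ => f (1 + t • X)) 0 = 0 := Iff.rfl

theorem translate_mem (g : Module.End ℂ V) {f : Module.End ℂ V → ℂ} (hf : f ∈ polyFun V) :
    (fun h => f (g * h)) ∈ polyFun V := by
  induction hf using Algebra.adjoin_induction with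
  | mem f hf =>
    obtain ⟨l, rfl⟩ := hf
    exact lin_mem (l.comp (LinearMap.mulLeft ℂ g))
  | algebraMap a => exact const_mem a
  | add f h hf hh h1 h2 => exact add_mem h1 h2
  | mul f h hf hh h1 h2 => exact mul_mem h1 h2

/-- invariance of the derivative -/
theorem D_vanish {G : Subgroup (Module.End ℂ V)ˣ} {X : Module.End ℂ V} (hX : X ∈ lieZar G)
    {f : Module.End ℂ V → ℂ} (hf : f ∈ polyFun V) (h0 : ∀ g ∈ G, f (g : Module.End ℂ V) = 0)
    {g : (Module.End ℂ V)ˣ} (hg : g ∈ G) : D X f (g : Module.End ℂ V) = 0 := by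
  have h1 := hX _ (translate_mem (g : Module.End ℂ V) hf) (fun h hh => by
    have := h0 (g * h) (G.mul_mem hg hh)
    rwa [Units.val_mul] at this)
  unfold D
  have h2 : (fun t : ℂ => f ((g : Module.End ℂ V) + t • ((g : Module.End ℂ V) * X))) =
      fun t : ℂ => f ((g : Module.End ℂ V) * (1 + t • X)) := by
    funext t
    rw [mul_add, mul_one, mul_smul_comm]
  rw [h2]
  exact h1

theorem lieZar_bracket {G : Subgroup (Module.End ℂ V)ˣ} {X Y : Module.End ℂ V}
    (hX : X ∈ lieZar G) (hY : Y ∈ lieZar G) : X * Y - Y * X ∈ lieZar G := by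
  intro f hf h0
  rw [← D_one, ← D_bracket X Y hf, Pi.sub_apply, D_one, D_one,
    hX _ (D_mem Y hf) (fun g hg => D_vanish hY hf h0 hg),
    hY _ (D_mem X hf) (fun g hg => D_vanish hX hf h0 hg), sub_zero]

end D

section fd

variable {V : Type*} [AddCommGroup V] [Module ℂ V] [FiniteDimensional ℂ V]

theorem bilin_mem (ψ : LinearMap.BilinForm ℂ V) (x y : V) :
    (fun g : Module.End ℂ V => ψ (g x) (g y)) ∈ polyFun V := by
  classical
  set b := Module.finBasis ℂ V with hb
  have h1 : (fun g : Module.End ℂ V => ψ (g x) (g y)) =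
      ∑ i, (fun g : Module.End ℂ V => b.coord i (g x)) * (fun g => ψ (b i) (g y)) := by
    funext g
    rw [Finset.sum_apply]
    simp only [Pi.mul_apply]
    conv_lhs => rw [← b.sum_repr (g x)]
    rw [map_sum, LinearMap.sum_apply]
    refine Finset.sum_congr rfl fun i _ => ?_
    rw [map_smul, LinearMap.smul_apply, smul_eq_mul]
    rfl
  rw [h1]
  refine sum_mem fun i _ => mul_mem ?_ ?_
  · exact lin_mem ((b.coord i).comp (LinearMap.applyₗ (R := ℂ) x))
  · exact lin_mem ((ψ (b i)).comp (LinearMap.applyₗ (R := ℂ) y))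

/-- The Lie algebra of a group of similitudes consists of infinitesimal similitudes. -/
theorem lieZar_infSim (ψ : LinearMap.BilinForm ℂ V) {G : Subgroup (Module.End ℂ V)ˣ}
    (hG : ∀ g ∈ G, ∃ c : ℂ, ∀ x y, ψ ((g : Module.End ℂ V) x) ((g : Module.End ℂ V) y) =
      c * ψ x y) {X : Module.End ℂ V} (hX : X ∈ lieZar G) :
    ∃ c : ℂ, ∀ x y, ψ (X x) y + ψ x (X y) = c * ψ x y := by
  -- the derivative of `ψ (g x) (g y)`
  have hd : ∀ x y : V, D X (fun g : Module.End ℂ V => ψ (g x) (g y)) 1 =
      ψ (X x) y + ψ x (X y) := by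
    intro x y
    rw [D_one]
    have h1 : (fun t : ℂ => ψ (((1 : Module.End ℂ V) + t • X) x)
        (((1 : Module.End ℂ V) + t • X) y)) =
        fun t : ℂ => ψ x y + t * (ψ (X x) y + ψ x (X y)) + t * t * ψ (X x) (X y) := by
      funext t
      simp only [LinearMap.add_apply, LinearMap.smul_apply, Module.End.one_apply, map_add,
        map_smul, smul_eq_mul]
      ring
    rw [h1]
    have h2 : HasDerivAt (fun t : ℂ => ψ x y + t * (ψ (X x) y + ψ x (X y)) +
        t * t * ψ (X x) (X y)) (0 + 1 * (ψ (X x) y + ψ x (X y)) +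
        (1 * 0 + 0 * 1) * ψ (X x) (X y)) 0 := by
      refine HasDerivAt.add (HasDerivAt.add (hasDerivAt_const _ _) ?_) ?_
      · exact (hasDerivAt_id (0 : ℂ)).mul_const _
      · exact ((hasDerivAt_id (0 : ℂ)).mul (hasDerivAt_id (0 : ℂ))).mul_const _
    rw [h2.deriv]
    ring
  have hrel : ∀ x y x' y' : V, (ψ (X x) y + ψ x (X y)) * ψ x' y' =
      (ψ (X x') y' + ψ x' (X y')) * ψ x y := by
    intro x y x' y'
    have hm : (fun g : Module.End ℂ V => ψ (g x) (g y)) * (fun _ => ψ x' y') +
        (fun g : Module.End ℂ V => ψ (g x') (g y')) * (fun _ => - ψ x y) ∈ polyFun V :=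
      add_mem (mul_mem (bilin_mem ψ x y) (const_mem _)) (mul_mem (bilin_mem ψ x' y') (const_mem _))
    have h1 := hX _ hm (fun g hg => by
      obtain ⟨c, hc⟩ := hG g hg
      simp only [Pi.add_apply, Pi.mul_apply, hc]
      ring)
    rw [← D_one, D_add X (mul_mem (bilin_mem ψ x y) (const_mem _))
      (mul_mem (bilin_mem ψ x' y') (const_mem _)), D_mul X (bilin_mem ψ x y) (const_mem _),
      D_mul X (bilin_mem ψ x' y') (const_mem _), D_const, D_const] at h1
    simp only [Pi.add_apply, Pi.mul_apply, hd, mul_zero, add_zero] at h1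
    linear_combination h1
  by_cases h0 : ∀ x y, ψ x y = 0
  · exact ⟨0, fun x y => by rw [h0, h0, h0]; ring⟩
  · push Not at h0
    obtain ⟨x', y', h0⟩ := h0
    refine ⟨(ψ (X x') y' + ψ x' (X y')) * (ψ x' y')⁻¹, fun x y => ?_⟩
    have h1 := hrel x y x' y'
    field_simp
    exact h1

end fd

section torus

variable {V : Type*} [AddCommGroup V] [Module ℂ V] {ι : Type*} [Fintype ι]

/-- the diagonal operator -/
noncomputable def Tdiag (b : Basis ι ℂ V) (x : ι → ℂ) : Module.End ℂ V :=
  b.constr ℂ fun i => x i • b i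

omit [Fintype ι] in
theorem Tdiag_apply (b : Basis ι ℂ V) (x : ι → ℂ) (i : ι) : Tdiag b x (b i) = x i • b i := by
  unfold Tdiag
  rw [Basis.constr_basis]

/-- polynomial functions restrict to polynomials on the diagonal operators -/
theorem exists_poly (b : Basis ι ℂ V) {f : Module.End ℂ V → ℂ} (hf : f ∈ polyFun V) :
    ∃ p : MvPolynomial ι ℂ, ∀ x : ι → ℂ, f (Tdiag b x) = MvPolynomial.eval x p := by
  classical
  induction hf using Algebra.adjoin_induction with
  | mem f hf =>
    obtain ⟨l, rfl⟩ := hf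
    refine ⟨∑ i, MvPolynomial.C (l (Tdiag b (Pi.single i 1))) * MvPolynomial.X i, fun x => ?_⟩
    have h1 : Tdiag b x = ∑ i, x i • Tdiag b (Pi.single i 1) := by
      refine b.ext fun j => ?_
      rw [Tdiag_apply, LinearMap.sum_apply, Finset.sum_eq_single j]
      · rw [LinearMap.smul_apply, Tdiag_apply, Pi.single_eq_same, one_smul]
      · intro i _ hij
        rw [LinearMap.smul_apply, Tdiag_apply, Pi.single_eq_of_ne hij.symm, zero_smul, smul_zero]
      · intro h; exact absurd (Finset.mem_univ j) h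
    change l (Tdiag b x) = _
    rw [h1, map_sum, map_sum]
    refine Finset.sum_congr rfl fun i _ => ?_
    rw [map_smul, smul_eq_mul, map_mul, MvPolynomial.eval_C, MvPolynomial.eval_X, mul_comm]
  | algebraMap a =>
    refine ⟨MvPolynomial.C a, fun x => ?_⟩
    rw [MvPolynomial.eval_C]
    rfl
  | add f h hf hh h1 h2 =>
    obtain ⟨p, hp⟩ := h1
    obtain ⟨r, hr⟩ := h2
    exact ⟨p + r, fun x => by rw [Pi.add_apply, hp, hr, map_add]⟩
  | mul f h hf hh h1 h2 =>
    obtain ⟨p, hp⟩ := h1
    obtain ⟨r, hr⟩ := h2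
    exact ⟨p * r, fun x => by rw [Pi.mul_apply, hp, hr, map_mul]⟩

/-- the sums of the coefficients over the fibres of `m ↦ z ^ m` vanish -/
theorem fibre_sum (z : ι → ℂ) (p : MvPolynomial ι ℂ)
    (h0 : ∀ n : ℕ, MvPolynomial.eval (fun i => z i ^ n) p = 0) (μ : ℂ → ℂ) :
    ∑ m ∈ p.support, p.coeff m * μ (∏ i, z i ^ m i) = 0 := by
  classical
  set F : ℂ →₀ ℂ := ∑ m ∈ p.support, Finsupp.single (∏ i, z i ^ m i) (p.coeff m) with hF
  have hsum : ∀ ν : ℂ → ℂ, (F.sum fun v c => c * ν v) =
      ∑ m ∈ p.support, p.coeff m * ν (∏ i, z i ^ m i) := by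
    intro ν
    rw [hF, ← Finsupp.sum_finsetSum_index (h := fun v c => c * ν v)
      (fun v => zero_mul _) (fun v c c' => add_mul _ _ _)]
    refine Finset.sum_congr rfl fun m _ => ?_
    rw [Finsupp.sum_single_index (zero_mul _)]
  have hlin := linearIndependent_monoidHom (Multiplicative ℕ) ℂ
  have hF0 : F = 0 := by
    have h1 : ∀ n : ℕ, (F.sum fun v c => c * v ^ n) = 0 := by
      intro n
      rw [hsum, ← h0 n, MvPolynomial.eval_eq']
      refine Finset.sum_congr rfl fun m _ => ?_
      rw [← Finset.prod_pow]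
      congr 1
      refine Finset.prod_congr rfl fun i _ => ?_
      rw [← pow_mul, ← pow_mul, mul_comm]
    -- transport to the characters of the monoid of natural numbers
    set E : ℂ ↪ (Multiplicative ℕ →* ℂ) := ⟨fun v => powersHom ℂ v, (powersHom ℂ).injective⟩ with hE
    have h2 : F.embDomain E = 0 := by
      refine linearIndependent_iff.mp hlin _ ?_
      rw [Finsupp.linearCombination_embDomain, Finsupp.linearCombination_apply]
      funext n
      have h3 := h1 (Multiplicative.toAdd n)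
      rw [Finsupp.sum, Finset.sum_apply]
      rw [Finsupp.sum] at h3
      rw [Pi.zero_apply, ← h3]
      refine Finset.sum_congr rfl fun v _ => ?_
      simp [hE, powersHom_apply]
    exact Finsupp.embDomain_eq_zero.mp h2
  rw [← hsum μ, hF0, Finsupp.sum_zero_index]

/-- The Lie algebra of the Zariski closure of the powers of a diagonalizable operator. -/
theorem torus_mem [FiniteDimensional ℂ V] {G : Subgroup (Module.End ℂ V)ˣ}
    {γ : (Module.End ℂ V)ˣ} (hγ : γ ∈ G) (b : Basis ι ℂ V) (z : ι → ℂ)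
    (hb : ∀ i, (γ : Module.End ℂ V) (b i) = z i • b i) (a : ι → ℂ)
    (ha : ∀ n : ι → ℤ, ∏ i, z i ^ n i = 1 → ∑ i, (n i : ℂ) * a i = 0)
    {X : Module.End ℂ V} (hX : ∀ i, X (b i) = a i • b i) : X ∈ lieZar G := by
  classical
  intro f hf h0
  obtain ⟨p, hp⟩ := exists_poly b hf
  have hz : ∀ i, z i ≠ 0 := by
    intro i hi
    have h1 := hb i
    rw [hi, zero_smul] at h1
    have h2 : ((γ⁻¹ : (Module.End ℂ V)ˣ) : Module.End ℂ V) ((γ : Module.End ℂ V) (b i)) = b i := by
      rw [← Module.End.mul_apply, Units.inv_mul, Module.End.one_apply]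
    rw [h1, map_zero] at h2
    exact b.ne_zero i h2.symm
  have hpow : ∀ n : ℕ, ((γ ^ n : (Module.End ℂ V)ˣ) : Module.End ℂ V) =
      Tdiag b fun i => z i ^ n := by
    intro n
    refine b.ext fun i => ?_
    rw [Tdiag_apply]
    induction n with
    | zero => rw [pow_zero, pow_zero, Units.val_one, Module.End.one_apply, one_smul]
    | succ n ih =>
      rw [pow_succ, Units.val_mul, Module.End.mul_apply, hb, map_smul, ih, smul_smul,
        pow_succ, mul_comm]
  have hp0 : ∀ n : ℕ, MvPolynomial.eval (fun i => z i ^ n) p = 0 := by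
    intro n
    rw [← hp, ← hpow]
    exact h0 _ (G.pow_mem hγ n)
  -- the value of the character `a` on the fibres
  have hμ : ∀ m m' : ι →₀ ℕ, ∏ i, z i ^ m i = ∏ i, z i ^ m' i →
      ∑ i, (m i : ℂ) * a i = ∑ i, (m' i : ℂ) * a i := by
    intro m m' hmm
    have h1 := ha (fun i => (m i : ℤ) - (m' i : ℤ)) (by
      have : ∀ i, z i ^ ((m i : ℤ) - (m' i : ℤ)) = z i ^ m i / z i ^ m' i := by
        intro i
        rw [zpow_sub₀ (hz i), zpow_natCast, zpow_natCast]
      rw [Finset.prod_congr rfl (fun i _ => this i), Finset.prod_div_distrib, hmm]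
      exact div_self (Finset.prod_ne_zero_iff.mpr fun i _ => pow_ne_zero _ (hz i)))
    push_cast at h1
    simp only [sub_mul, Finset.sum_sub_distrib] at h1
    exact sub_eq_zero.mp h1
  set μ : ℂ → ℂ := fun v => if h : ∃ m : ι →₀ ℕ, ∏ i, z i ^ m i = v then
    ∑ i, (h.choose i : ℂ) * a i else 0 with hμdef
  have hμv : ∀ m : ι →₀ ℕ, μ (∏ i, z i ^ m i) = ∑ i, (m i : ℂ) * a i := by
    intro m
    have h : ∃ m' : ι →₀ ℕ, ∏ i, z i ^ m' i = ∏ i, z i ^ m i := ⟨m, rfl⟩
    rw [hμdef]
    simp only
    rw [dif_pos h]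
    exact hμ _ _ h.choose_spec
  have hsum := fibre_sum z p hp0 μ
  -- the derivative
  have hT : ∀ t : ℂ, (1 : Module.End ℂ V) + t • X = Tdiag b fun i => 1 + t * a i := by
    intro t
    refine b.ext fun i => ?_
    rw [Tdiag_apply, LinearMap.add_apply, Module.End.one_apply, LinearMap.smul_apply, hX,
      add_smul, one_smul, smul_smul]
  have hfun : (fun t : ℂ => f (1 + t • X)) =
      fun t : ℂ => ∑ m ∈ p.support, p.coeff m * ∏ i, (1 + t * a i) ^ m i := by
    funext t
    rw [hT, hp, MvPolynomial.eval_eq']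
  rw [hfun]
  have hder : HasDerivAt (fun t : ℂ => ∑ m ∈ p.support, p.coeff m * ∏ i, (1 + t * a i) ^ m i)
      (∑ m ∈ p.support, p.coeff m * ∑ i, (m i : ℂ) * a i) 0 := by
    refine HasDerivAt.fun_sum fun m _ => HasDerivAt.const_mul _ ?_
    have h1 : ∀ i, HasDerivAt (fun t : ℂ => (1 + t * a i) ^ m i) ((m i : ℂ) * a i) 0 := by
      intro i
      have h2 : HasDerivAt (fun t : ℂ => 1 + t * a i) (1 * a i) 0 :=
        ((hasDerivAt_id (0 : ℂ)).mul_const (a i)).const_add 1
      have h3 := h2.fun_pow (m i)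
      have h4 : (m i : ℂ) * (1 + 0 * a i) ^ (m i - 1) * (1 * a i) = (m i : ℂ) * a i := by
        rw [zero_mul, add_zero, one_pow, mul_one, one_mul]
      rw [h4] at h3
      exact h3
    have h4 := HasDerivAt.fun_finsetProd (u := Finset.univ) (fun i _ => h1 i)
    convert h4 using 1
    refine Finset.sum_congr rfl fun i _ => ?_
    simp
  rw [hder.deriv, ← hsum]
  refine Finset.sum_congr rfl fun m _ => ?_
  rw [hμv]

/-- The same with the eigenvalues as the roots of the characteristic polynomial. -/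
theorem torusLie_mem [FiniteDimensional ℂ V] {G : Subgroup (Module.End ℂ V)ˣ}
    {γ : (Module.End ℂ V)ˣ} (hγ : γ ∈ G) (b : Basis ι ℂ V) (z : ι → ℂ)
    (hb : ∀ i, (γ : Module.End ℂ V) (b i) = z i • b i) {X : Module.End ℂ V} (a : ℂ → ℂ)
    (hX : ∀ w v, (γ : Module.End ℂ V) v = w • v → X v = a w • v)
    (ha : ∀ (n : ℂ → ℤ) (N : ℕ), N ≠ 0 →
      (∏ w ∈ (γ : Module.End ℂ V).charpoly.roots.toFinset, w ^ n w) ^ N = 1 →
      ∑ w ∈ (γ : Module.End ℂ V).charpoly.roots.toFinset, (n w : ℂ) * a w = 0) :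
    X ∈ lieZar G := by
  classical
  have hz0 : ∀ i, z i ≠ 0 := by
    intro i hi
    have h1 := hb i
    rw [hi, zero_smul] at h1
    have h2 : ((γ⁻¹ : (Module.End ℂ V)ˣ) : Module.End ℂ V) ((γ : Module.End ℂ V) (b i)) = b i := by
      rw [← Module.End.mul_apply, Units.inv_mul, Module.End.one_apply]
    rw [h1, map_zero] at h2
    exact b.ne_zero i h2.symm
  have hroot : ∀ i ∈ (Finset.univ : Finset ι),
      z i ∈ (γ : Module.End ℂ V).charpoly.roots.toFinset := by
    intro i _
    rw [Multiset.mem_toFinset, Polynomial.mem_roots (LinearMap.charpoly_monic _).ne_zero]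
    refine (Module.End.hasEigenvalue_iff_isRoot_charpoly _ _).mp ?_
    exact Module.End.hasEigenvalue_of_hasEigenvector (x := b i)
      ⟨Module.End.mem_eigenspace_iff.mpr (hb i), b.ne_zero i⟩
  refine torus_mem hγ b z hb (fun i => a (z i)) (fun n hn => ?_)
    (fun i => hX (z i) (b i) (hb i))
  have h1 := ha (fun w => ∑ i ∈ Finset.univ.filter (fun i => z i = w), n i) 1 one_ne_zero (by
    rw [pow_one, ← hn, ← Finset.prod_fiberwise_of_maps_to hroot]
    refine Finset.prod_congr rfl fun w _ => ?_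
    by_cases hw : w = 0
    · have : (Finset.univ.filter fun i => z i = w) = ∅ := by
        refine Finset.filter_eq_empty_iff.mpr fun i _ h => hz0 i (by rw [h, hw])
      rw [this, Finset.sum_empty, Finset.prod_empty, zpow_zero]
    · have hz : ∀ S : Finset ι, w ^ (∑ i ∈ S, n i) = ∏ i ∈ S, w ^ n i := by
        intro S
        induction S using Finset.induction_on with
        | empty => rw [Finset.sum_empty, Finset.prod_empty, zpow_zero]
        | insert i S hi ih => rw [Finset.sum_insert hi, Finset.prod_insert hi, zpow_add₀ hw, ih]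
      rw [hz]
      refine Finset.prod_congr rfl fun i hi => ?_
      rw [(Finset.mem_filter.mp hi).2])
  rw [← h1, ← Finset.sum_fiberwise_of_maps_to hroot]
  refine Finset.sum_congr rfl fun w _ => ?_
  push_cast
  rw [Finset.sum_mul]
  refine Finset.sum_congr rfl fun i hi => ?_
  rw [(Finset.mem_filter.mp hi).2]

end torus

end Pool.Agent.Helper68.LM
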