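import Mathlib

/-!
# LM, root lines: a Lie algebra of symplectic matrices which contains the diagonal ones and acts
semisimply is the double centralizer of itself

`ι` is the index set of a basis `v_i` of a symplectic space with `ψ(v_i, v_{bar i}) = s i` and all
other products zero. A matrix `X` is (off the diagonal) a symplectic similitude if
`s j * X (bar j) (bar i) = - s i * X i j`.
-/

set_option autoImplicit false
set_option linter.unusedVariables false
set_option linter.unusedSimpArgs false

namespace Pool.Agent.Helper68.LM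

open Matrix Finset

variable {K ι : Type*} [Field K] [CharZero K] [Fintype ι] [DecidableEq ι]

/-- the root vector -/
private def Xel (bar : ι → ι) (s : ι → K) (i j : ι) : Matrix ι ι K :=
  fun a b => (if a = i ∧ b = j then s j else 0) - (if a = bar j ∧ b = bar i then s i else 0)

omit [CharZero K] in
/-- mask by a product of commutators with diagonal matrices of `L` -/
private theorem mask (L : Submodule K (Matrix ι ι K))
    (hbr : ∀ X ∈ L, ∀ Y ∈ L, X * Y - Y * X ∈ L) (i j : ι)
    (x : ι × ι → ι → K) (hx : ∀ p, Matrix.diagonal (x p) ∈ L)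
    {Y : Matrix ι ι K} (hY : Y ∈ L) (S : Finset (ι × ι)) :
    (Matrix.of fun a b => (∏ p ∈ S, (x p a - x p b - (x p p.1 - x p p.2)) /
      (x p i - x p j - (x p p.1 - x p p.2))) * Y a b : Matrix ι ι K) ∈ L := by
  classical
  induction S using Finset.induction_on with
  | empty =>
    have : (Matrix.of fun a b => (∏ p ∈ (∅ : Finset (ι × ι)), (x p a - x p b - (x p p.1 - x p p.2)) /
      (x p i - x p j - (x p p.1 - x p p.2))) * Y a b : Matrix ι ι K) = Y := by
      ext a b
      simp
    rw [this]
    exact hY
  | insert p S hp ih =>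
    set Z : Matrix ι ι K := Matrix.of fun a b =>
      (∏ p ∈ S, (x p a - x p b - (x p p.1 - x p p.2)) /
      (x p i - x p j - (x p p.1 - x p p.2))) * Y a b with hZ
    have h1 := hbr _ (hx p) _ ih
    have h2 := L.smul_mem ((x p i - x p j - (x p p.1 - x p p.2))⁻¹)
      (L.sub_mem h1 (L.smul_mem (x p p.1 - x p p.2) ih))
    have h3 : (Matrix.of fun a b => (∏ p ∈ insert p S, (x p a - x p b - (x p p.1 - x p p.2)) /
      (x p i - x p j - (x p p.1 - x p p.2))) * Y a b : Matrix ι ι K) =
      (x p i - x p j - (x p p.1 - x p p.2))⁻¹ • ((Matrix.diagonal (x p) * Z - Z *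
        Matrix.diagonal (x p)) - (x p p.1 - x p p.2) • Z) := by
      ext a b
      rw [Matrix.of_apply, Finset.prod_insert hp]
      simp only [Matrix.smul_apply, Matrix.sub_apply, Matrix.diagonal_mul, Matrix.mul_diagonal,
        smul_eq_mul, hZ, Matrix.of_apply]
      ring
    rw [h3]
    exact h2

omit [Fintype ι] in
/-- separation of pairs by the diagonal matrices `e_m - e_(bar m)` -/
private theorem separate {bar : ι → ι} (hbar : ∀ i, bar (bar i) = i) (hne : ∀ i, bar i ≠ i)
    {i j : ι} (hij : i ≠ j) (k l : ι) (h1 : ¬ (k = i ∧ l = j)) (h2 : ¬ (k = bar j ∧ l = bar i)) :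
    ∃ x : ι → K, (∀ m, x m + x (bar m) = 0) ∧ x i - x j - (x k - x l) ≠ 0 := by
  have hu : ∀ m : ι, ∀ n : ι, ((if n = m then (1 : K) else 0) - (if n = bar m then 1 else 0)) +
      ((if bar n = m then (1 : K) else 0) - (if bar n = bar m then 1 else 0)) = 0 := by
    intro m n
    have e1 : bar n = bar m ↔ n = m := ⟨fun h => by rw [← hbar n, h, hbar], fun h => by rw [h]⟩
    have e2 : bar n = m ↔ n = bar m := ⟨fun h => by rw [← h, hbar], fun h => by rw [h, hbar]⟩
    simp only [e1, e2]
    ring
  by_contra hcon
  push Not at hcon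
  have hi := hcon (fun n => (if n = i then (1 : K) else 0) - (if n = bar i then 1 else 0)) (hu i)
  have hj := hcon (fun n => (if n = j then (1 : K) else 0) - (if n = bar j then 1 else 0)) (hu j)
  have n1 : (i = bar i) = False := by simpa using (hne i).symm
  have n2 : (j = bar j) = False := by simpa using (hne j).symm
  have n3 : (i = j) = False := by simpa using hij
  have n4 : (j = i) = False := by simpa using hij.symm
  have two : (2 : K) ≠ 0 := two_ne_zero
  have three : (3 : K) ≠ 0 := three_ne_zero
  simp only [if_true, n1, n2, n3, n4, if_false] at hi hj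
  have e3 : (j = bar i) ↔ (i = bar j) := ⟨fun h => by rw [h, hbar], fun h => by rw [h, hbar]⟩
  by_cases hk : k = i
  · subst hk
    have hlj : l ≠ j := fun h => h1 ⟨rfl, h⟩
    simp only [hij, if_false, hlj] at hj
    by_cases c1 : k = bar j <;> by_cases c2 : l = bar j <;>
      simp only [c1, c2, if_true, if_false] at hj <;> revert hj <;> norm_num
  · by_cases hl : l = bar i
    · have hkj : k ≠ bar j := fun h => h2 ⟨h, hl⟩
      have c3 : bar i ≠ bar j := fun h => hij (by rw [← hbar i, h, hbar])
      have n5 : (l = i) = False := by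
        rw [hl]
        simpa using hne i
      have n6 : (l = bar j) = False := by
        rw [hl]
        simpa using c3
      have n5' : (bar i = i) = False := by simpa using hne i
      simp only [hk, if_false, hl, n5', if_true] at hi
      simp only [hkj, n6, if_false] at hj
      by_cases c1 : j = bar i
      · by_cases c2 : k = bar i
        · -- k = j
          have hkj' : k = j := by rw [c1, c2]
          rw [← hl] at c1
          simp only [hkj', e3.mp (by rw [c1, hl]), c1.symm, if_true] at hj
          revert hj
          norm_num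
        · simp only [c1, c2, if_true, if_false] at hi
          revert hi
          norm_num
      · have c1' : (i = bar j) = False := by simpa [e3] using c1
        have n7 : (l = j) = False := by
          rw [hl]
          simpa using fun h : bar i = j => c1 h.symm
        simp only [c1', n7, if_false] at hj
        by_cases c2 : k = j
        · simp only [c2, if_true] at hj
          revert hj
          norm_num
        · simp only [c2, if_false] at hj
          revert hj
          norm_num
    · simp only [hk, hl, if_false] at hi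
      by_cases c1 : j = bar i <;> by_cases c2 : k = bar i <;> by_cases c3 : l = i <;>
        simp only [c1, c2, c3, if_true, if_false] at hi <;> revert hi <;> norm_num

/-- the root vectors of the nonzero entries -/
private theorem extract {bar : ι → ι} {s : ι → K} (hbar : ∀ i, bar (bar i) = i)
    (hne : ∀ i, bar i ≠ i) (hs : ∀ i, s i ≠ 0) (hsb : ∀ i, s (bar i) = - s i)
    (L : Submodule K (Matrix ι ι K)) (hbr : ∀ X ∈ L, ∀ Y ∈ L, X * Y - Y * X ∈ L)
    (hL : ∀ X ∈ L, ∀ i j, i ≠ j → s j * X (bar j) (bar i) = - s i * X i j)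
    (hdiag : ∀ x : ι → K, (∀ i, x i + x (bar i) = 0) → Matrix.diagonal x ∈ L)
    {Y : Matrix ι ι K} (hY : Y ∈ L) {i j : ι} (hij : i ≠ j) (h0 : Y i j ≠ 0) :
    Xel bar s i j ∈ L := by
  classical
  have hsep : ∀ p : ι × ι, ∃ x : ι → K, (∀ m, x m + x (bar m) = 0) ∧
      ((¬ (p.1 = i ∧ p.2 = j)) → (¬ (p.1 = bar j ∧ p.2 = bar i)) →
        x i - x j - (x p.1 - x p.2) ≠ 0) := by
    intro p
    by_cases h1 : (p.1 = i ∧ p.2 = j)
    · exact ⟨0, by simp, fun h => absurd h1 h⟩
    · by_cases h2 : (p.1 = bar j ∧ p.2 = bar i)
      · exact ⟨0, by simp, fun _ h => absurd h2 h⟩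
      · obtain ⟨x, hx, hx'⟩ := separate (K := K) hbar hne hij p.1 p.2 h1 h2
        exact ⟨x, hx, fun _ _ => hx'⟩
  choose x hx hxs using hsep
  set S : Finset (ι × ι) := Finset.univ.filter
    (fun p : ι × ι => ¬ (p.1 = i ∧ p.2 = j) ∧ ¬ (p.1 = bar j ∧ p.2 = bar i)) with hS
  have hm := mask L hbr i j x (fun p => hdiag _ (hx p)) hY S
  have hxb : ∀ p m, x p (bar m) = - x p m := fun p m => by
    have := hx p m
    exact eq_neg_of_add_eq_zero_right this
  have h1 : (∏ p ∈ S, (x p i - x p j - (x p p.1 - x p p.2)) /
      (x p i - x p j - (x p p.1 - x p p.2))) = 1 := by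
    refine Finset.prod_eq_one fun p hp => ?_
    rw [hS, Finset.mem_filter] at hp
    exact div_self (hxs p hp.2.1 hp.2.2)
  have h2 : (∏ p ∈ S, (x p (bar j) - x p (bar i) - (x p p.1 - x p p.2)) /
      (x p i - x p j - (x p p.1 - x p p.2))) = 1 := by
    refine Finset.prod_eq_one fun p hp => ?_
    rw [hS, Finset.mem_filter] at hp
    rw [hxb, hxb, show - x p j - - x p i = x p i - x p j by ring]
    exact div_self (hxs p hp.2.1 hp.2.2)
  have h3 : ∀ a b, ¬ (a = i ∧ b = j) → ¬ (a = bar j ∧ b = bar i) →
      (∏ p ∈ S, (x p a - x p b - (x p p.1 - x p p.2)) /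
      (x p i - x p j - (x p p.1 - x p p.2))) = 0 := by
    intro a b ha hb
    refine Finset.prod_eq_zero (i := (a, b)) ?_ ?_
    · rw [hS, Finset.mem_filter]
      exact ⟨Finset.mem_univ _, ha, hb⟩
    · simp
  have hYb : s j * Y (bar j) (bar i) = - s i * Y i j := hL Y hY i j hij
  by_cases hc : i = bar j
  · -- a long root
    have hc' : j = bar i := by rw [hc, hbar]
    have : Xel bar s i j = ((2 * s j) * (Y i j)⁻¹) • (Matrix.of fun a b =>
        (∏ p ∈ S, (x p a - x p b - (x p p.1 - x p p.2)) /
        (x p i - x p j - (x p p.1 - x p p.2))) * Y a b : Matrix ι ι K) := by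
      ext a b
      rw [Matrix.smul_apply, Matrix.of_apply, smul_eq_mul]
      by_cases hab : a = i ∧ b = j
      · obtain ⟨rfl, rfl⟩ := hab
        rw [h1]
        have hsi : s a = - s b := by rw [hc, hsb]
        simp only [Xel, ← hc, ← hc', and_self, if_true, hsi]
        field_simp
        ring
      · have hab' : ¬ (a = bar j ∧ b = bar i) := by
          rw [← hc, ← hc']
          exact hab
        rw [h3 a b hab hab']
        simp only [Xel, hab, hab', if_false]
        ring
    rw [this]
    exact L.smul_mem _ hm
  · have hne' : ¬ (i = bar j ∧ j = bar i) := fun h => hc h.1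
    have hne'' : ¬ (bar j = i ∧ bar i = j) := fun h => hc h.1.symm
    have : Xel bar s i j = (s j * (Y i j)⁻¹) • (Matrix.of fun a b =>
        (∏ p ∈ S, (x p a - x p b - (x p p.1 - x p p.2)) /
        (x p i - x p j - (x p p.1 - x p p.2))) * Y a b : Matrix ι ι K) := by
      ext a b
      rw [Matrix.smul_apply, Matrix.of_apply, smul_eq_mul]
      by_cases hab : a = i ∧ b = j
      · obtain ⟨rfl, rfl⟩ := hab
        rw [h1]
        simp only [Xel, hne', and_self, if_true, if_false]
        field_simp
        ring
      · by_cases hab' : a = bar j ∧ b = bar i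
        · obtain ⟨rfl, rfl⟩ := hab'
          rw [h2]
          simp only [Xel, hne'', and_self, if_true, if_false]
          have : s j * (Y i j)⁻¹ * (1 * Y (bar j) (bar i)) =
              (Y i j)⁻¹ * (s j * Y (bar j) (bar i)) := by ring
          rw [this, hYb]
          field_simp
          ring
        · rw [h3 a b hab hab']
          simp only [Xel, hab, hab', if_false]
          ring
    rw [this]
    exact L.smul_mem _ hm

/-- transitivity -/
private theorem trans_aux {bar : ι → ι} {s : ι → K} (hbar : ∀ i, bar (bar i) = i)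
    (hne : ∀ i, bar i ≠ i) (hs : ∀ i, s i ≠ 0) (hsb : ∀ i, s (bar i) = - s i)
    (L : Submodule K (Matrix ι ι K)) (hbr : ∀ X ∈ L, ∀ Y ∈ L, X * Y - Y * X ∈ L)
    (hL : ∀ X ∈ L, ∀ i j, i ≠ j → s j * X (bar j) (bar i) = - s i * X i j)
    (hdiag : ∀ x : ι → K, (∀ i, x i + x (bar i) = 0) → Matrix.diagonal x ∈ L)
    {i j k : ι} (hij : i ≠ j) (hjk : j ≠ k) (hik : i ≠ k)
    (h1 : Xel bar s i j ∈ L) (h2 : Xel bar s j k ∈ L) : Xel bar s i k ∈ L := by
  classical
  refine extract hbar hne hs hsb L hbr hL hdiag (hbr _ h1 _ h2) hik ?_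
  have hinj : ∀ a b : ι, bar a = bar b ↔ a = b := fun a b =>
    ⟨fun h => by rw [← hbar a, h, hbar], fun h => by rw [h]⟩
  have hswap : ∀ a b : ι, a = bar b ↔ b = bar a := fun a b =>
    ⟨fun h => by rw [h, hbar], fun h => by rw [h, hbar]⟩
  have e1 : (Xel bar s i j * Xel bar s j k) i k = s j * s k - (if k = bar j then s j * s j else 0)
      - (if i = bar j then s i * s k else 0) := by
    rw [Matrix.mul_apply]
    have : ∀ m, Xel bar s i j i m * Xel bar s j k m k =
        (if m = j then (s j * (s k - (if k = bar j then s j else 0))) else 0) -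
        (if m = bar i then (if i = bar j then s i * s k else 0) else 0) := by
      intro m
      unfold Xel
      by_cases c1 : m = j
      · subst c1
        by_cases c2 : i = bar m
        · have c3 : m = bar i := (hswap _ _).mp c2
          have c4 : ¬ k = bar m := fun h => hik (by rw [c2, h])
          simp only [← c3, ← c2, and_self, if_true, hik.symm, c4, and_false, if_false, hjk,
            false_and]
          ring
        · have c3 : ¬ m = bar i := fun h => c2 ((hswap _ _).mp h)
          have c5 : m = bar k ↔ k = bar m := hswap _ _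
          simp only [c2, c3, false_and, and_false, if_false, and_self, if_true, c5]
          ring_nf
      · by_cases c6 : m = bar i
        · subst c6
          have c7 : ¬ bar i = bar k := fun h => hik ((hinj _ _).mp h)
          simp only [c1, c7, false_and, and_false, and_true, if_false, if_true, and_self]
          by_cases c8 : i = bar j
          · exact absurd ((hswap _ _).mp c8).symm c1
          · simp only [c8, if_false]
            ring
        · simp only [c1, c6, and_false, false_and, if_false]
          ring
    rw [Finset.sum_congr rfl (fun m _ => this m), Finset.sum_sub_distrib, Finset.sum_ite_eq',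
      Finset.sum_ite_eq']
    simp only [Finset.mem_univ, if_true]
    by_cases c : k = bar j <;> simp only [c, if_true, if_false] <;> ring
  have e2 : (Xel bar s j k * Xel bar s i j) i k = if k = bar i then s i * s j else 0 := by
    rw [Matrix.mul_apply]
    have : ∀ m, Xel bar s j k i m * Xel bar s i j m k =
        if m = bar j then (if k = bar i then s i * s j else 0) else 0 := by
      intro m
      unfold Xel
      have c9 : i = bar k ↔ k = bar i := hswap _ _
      simp only [hij, hjk.symm, false_and, and_false, if_false, zero_sub, c9]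
      by_cases c1 : m = bar j
      · by_cases c2 : k = bar i
        · rw [if_pos ⟨c2, c1⟩, if_pos ⟨c1, c2⟩, if_pos c1, if_pos c2]
          ring
        · simp only [c2, false_and, and_false, if_false]
          ring_nf
          simp
      · simp only [c1, false_and, and_false, if_false]
        ring
    rw [Finset.sum_congr rfl (fun m _ => this m), Finset.sum_ite_eq']
    simp only [Finset.mem_univ, if_true]
  rw [Matrix.sub_apply, e1, e2]
  have t2 : (2 : K) ≠ 0 := two_ne_zero
  by_cases c1 : k = bar j
  · have c2 : ¬ i = bar j := fun h => hik (by rw [h, c1])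
    have c3 : ¬ k = bar i := fun h => hij ((hinj _ _).mp (by rw [← h, c1]))
    rw [if_pos c1, if_neg c2, if_neg c3, c1, hsb]
    have : s j * -s j - s j * s j - 0 - 0 = - (2 * (s j * s j)) := by ring
    rw [this]
    exact neg_ne_zero.mpr (mul_ne_zero t2 (mul_ne_zero (hs j) (hs j)))
  · by_cases c2 : i = bar j
    · have c3 : ¬ k = bar i := fun h => hjk (by rw [h, c2, hbar])
      rw [if_neg c1, if_pos c2, if_neg c3, c2, hsb]
      have : s j * s k - 0 - -s j * s k - 0 = 2 * (s j * s k) := by ring
      rw [this]
      exact mul_ne_zero t2 (mul_ne_zero (hs j) (hs k))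
    · by_cases c3 : k = bar i
      · rw [if_neg c1, if_neg c2, if_pos c3, c3, hsb]
        have : s j * -s i - 0 - 0 - s i * s j = - (2 * (s i * s j)) := by ring
        rw [this]
        exact neg_ne_zero.mpr (mul_ne_zero t2 (mul_ne_zero (hs i) (hs j)))
      · rw [if_neg c1, if_neg c2, if_neg c3]
        have : s j * s k - 0 - 0 - 0 = s j * s k := by ring
        rw [this]
        exact mul_ne_zero (hs j) (hs k)

/-- coordinate projections of stable subspaces -/
private theorem proj_mem {bar : ι → ι} (hbar : ∀ i, bar (bar i) = i) (hne : ∀ i, bar i ≠ i)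
    (L : Submodule K (Matrix ι ι K))
    (hdiag : ∀ x : ι → K, (∀ i, x i + x (bar i) = 0) → Matrix.diagonal x ∈ L)
    (W : Submodule K (ι → K)) (hW : ∀ X ∈ L, ∀ w ∈ W, X.mulVec w ∈ W) {w : ι → K} (hw : w ∈ W)
    (m : ι) (hm : w m ≠ 0) : (Pi.single m (1 : K) : ι → K) ∈ W := by
  classical
  have hswap : ∀ a b : ι, a = bar b ↔ b = bar a := fun a b =>
    ⟨fun h => by rw [h, hbar], fun h => by rw [h, hbar]⟩
  have hinj : ∀ a b : ι, bar a = bar b ↔ a = b := fun a b =>
    ⟨fun h => by rw [← hbar a, h, hbar], fun h => by rw [h]⟩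
  set x : ι → K := fun n => (if n = m then (1 : K) else 0) - (if n = bar m then 1 else 0) with hx
  have hx0 : ∀ i, x i + x (bar i) = 0 := by
    intro n
    simp only [hx]
    have e1 : bar n = bar m ↔ n = m := hinj _ _
    have e2 : bar n = m ↔ n = bar m := ⟨fun h => by rw [← h, hbar], fun h => by rw [h, hbar]⟩
    simp only [e1, e2]
    ring
  have h1 := hW _ (hdiag x hx0) _ hw
  have h2 := hW _ (hdiag x hx0) _ h1
  have h3 : (Pi.single m (1 : K) : ι → K) = (2 * w m)⁻¹ •
      ((Matrix.diagonal x).mulVec ((Matrix.diagonal x).mulVec w) +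
        (Matrix.diagonal x).mulVec w) := by
    ext n
    simp only [Pi.smul_apply, Pi.add_apply, Matrix.mulVec_diagonal, smul_eq_mul, hx]
    by_cases c1 : n = m
    · subst c1
      have : ¬ n = bar n := fun h => hne n h.symm
      simp only [this, if_true, if_false, Pi.single_eq_same]
      field_simp
      ring
    · rw [Pi.single_eq_of_ne c1]
      simp only [c1, if_false]
      by_cases c2 : n = bar m <;> simp only [c2, if_true, if_false] <;> ring
  rw [h3]
  exact W.smul_mem _ (W.add_mem h2 h1)

/-- **Double centralizer theorem for the Lie algebras of similitudes which contain the diagonal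
symplectic matrices and act semisimply.** -/
theorem double_centralizer {bar : ι → ι} {s : ι → K} (hbar : ∀ i, bar (bar i) = i)
    (hne : ∀ i, bar i ≠ i) (hs : ∀ i, s i ≠ 0) (hsb : ∀ i, s (bar i) = - s i)
    (L : Submodule K (Matrix ι ι K)) (hbr : ∀ X ∈ L, ∀ Y ∈ L, X * Y - Y * X ∈ L)
    (hL : ∀ X ∈ L, ∀ i j, i ≠ j → s j * X (bar j) (bar i) = - s i * X i j)
    (hdiag : ∀ x : ι → K, (∀ i, x i + x (bar i) = 0) → Matrix.diagonal x ∈ L)
    (hss : ∀ W : Submodule K (ι → K), (∀ X ∈ L, ∀ w ∈ W, X.mulVec w ∈ W) →
      ∃ W' : Submodule K (ι → K), (∀ X ∈ L, ∀ w ∈ W', X.mulVec w ∈ W') ∧ IsCompl W W')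
    {X : Matrix ι ι K} (hX : ∀ i j, i ≠ j → s j * X (bar j) (bar i) = - s i * X i j)
    (hX0 : Matrix.diagonal (fun i => X i i) ∈ L)
    (hc : ∀ Y : Matrix ι ι K, (∀ Z ∈ L, Y * Z = Z * Y) → X * Y = Y * X) : X ∈ L := by
  classical
  set R : ι → ι → Prop := fun i j => i = j ∨ Xel bar s i j ∈ L with hR
  have hRrefl : ∀ i, R i i := fun i => Or.inl rfl
  have hRentry : ∀ Z ∈ L, ∀ i j, Z i j ≠ 0 → R i j := by
    intro Z hZ i j h0
    by_cases hij : i = j
    · exact Or.inl hij
    · exact Or.inr (extract hbar hne hs hsb L hbr hL hdiag hZ hij h0)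
  have hRtrans : ∀ i j k, R i j → R j k → R i k := by
    intro i j k h1 h2
    by_cases hik : i = k
    · exact Or.inl hik
    · rcases h1 with h1 | h1
      · rw [h1]; exact h2
      · rcases h2 with h2 | h2
        · rw [← h2]; exact Or.inr h1
        · by_cases hij : i = j
          · rw [hij]; exact Or.inr h2
          · by_cases hjk : j = k
            · rw [← hjk]; exact Or.inr h1
            · exact Or.inr (trans_aux hbar hne hs hsb L hbr hL hdiag hij hjk hik h1 h2)
  have hRsymm : ∀ i j, R i j → R j i := by
    intro i j h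
    by_contra hcon
    have hij : i ≠ j := fun h => hcon (Or.inl h.symm)
    have hXel : Xel bar s i j ∈ L := h.resolve_left hij
    set U : Submodule K (ι → K) :=
      { carrier := {w | ∀ a, w a ≠ 0 → R a i}
        add_mem' := by
          intro w w' hw hw' a ha
          by_cases h1 : w a = 0
          · have : w' a ≠ 0 := by
              intro h2
              exact ha (by rw [Pi.add_apply, h1, h2, add_zero])
            exact hw' a this
          · exact hw a h1
        zero_mem' := fun a ha => absurd rfl ha
        smul_mem' := by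
          intro c w hw a ha
          refine hw a fun h0 => ha ?_
          rw [Pi.smul_apply, h0, smul_zero] } with hU
    have hUs : ∀ Z ∈ L, ∀ w ∈ U, Z.mulVec w ∈ U := by
      intro Z hZ w hw a ha
      have : ∃ b, Z a b * w b ≠ 0 := by
        by_contra hno
        push Not at hno
        exact ha (Finset.sum_eq_zero fun b _ => hno b)
      obtain ⟨b, hb⟩ := this
      exact hRtrans a b i (hRentry Z hZ a b (left_ne_zero_of_mul hb))
        (hw b (right_ne_zero_of_mul hb))
    obtain ⟨W', hW', hcompl⟩ := hss U hUs
    have htop : (Pi.single j (1 : K) : ι → K) ∈ U ⊔ W' := by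
      rw [hcompl.sup_eq_top]
      exact Submodule.mem_top
    obtain ⟨u, hu, w', hw', huw⟩ := Submodule.mem_sup.mp htop
    have huj : u j = 0 := by
      by_contra h0
      exact hcon (hu j h0)
    have hw'j : w' j = 1 := by
      have := congrFun huw j
      rw [Pi.add_apply, huj, zero_add, Pi.single_eq_same] at this
      exact this
    have hej : (Pi.single j (1 : K) : ι → K) ∈ W' :=
      proj_mem hbar hne L hdiag W' hW' hw' j (by rw [hw'j]; exact one_ne_zero)
    have hei' := hW' _ hXel _ hej
    have hei : (Pi.single i (1 : K) : ι → K) ∈ W' := by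
      refine proj_mem hbar hne L hdiag W' hW' hei' i ?_
      rw [Matrix.mulVec_single_one]
      change Xel bar s i j i j ≠ 0
      unfold Xel
      by_cases c : i = bar j
      · have c' : j = bar i := by rw [c, hbar]
        rw [if_pos ⟨rfl, rfl⟩, if_pos ⟨c, c'⟩]
        have : s i = - s j := by rw [c, hsb]
        rw [this, sub_neg_eq_add, ← two_mul]
        exact mul_ne_zero two_ne_zero (hs j)
      · rw [if_pos ⟨rfl, rfl⟩, if_neg (fun h => c h.1), sub_zero]
        exact hs j
    have heiU : (Pi.single i (1 : K) : ι → K) ∈ U := by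
      intro a ha
      by_cases hai : a = i
      · rw [hai]; exact hRrefl i
      · exact absurd (Pi.single_eq_of_ne hai _) ha
    have hzero : (Pi.single i (1 : K) : ι → K) ∈ U ⊓ W' := ⟨heiU, hei⟩
    rw [hcompl.inf_eq_bot, Submodule.mem_bot] at hzero
    have := congrFun hzero i
    rw [Pi.single_eq_same, Pi.zero_apply] at this
    exact one_ne_zero this
  have hXR : ∀ a b, X a b ≠ 0 → R a b := by
    intro a b hab
    set Y : Matrix ι ι K := Matrix.diagonal (fun m => if R m b then (1 : K) else 0) with hY
    have hcomm : ∀ Z ∈ L, Y * Z = Z * Y := by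
      intro Z hZ
      ext m n
      rw [hY, Matrix.diagonal_mul, Matrix.mul_diagonal]
      by_cases h0 : Z m n = 0
      · rw [h0, mul_zero, zero_mul]
      · have h1 := hRentry Z hZ m n h0
        by_cases h2 : R m b
        · rw [if_pos h2, if_pos (hRtrans n m b (hRsymm m n h1) h2), one_mul, mul_one]
        · rw [if_neg h2, if_neg (fun h3 => h2 (hRtrans m n b h1 h3)), zero_mul, mul_zero]
    have h1 := congrFun (congrFun (hc Y hcomm) a) b
    rw [hY, Matrix.diagonal_mul, Matrix.mul_diagonal, if_pos (hRrefl b), mul_one] at h1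
    by_contra h2
    rw [if_neg h2, zero_mul] at h1
    exact hab h1
  have hmem : (∑ p : ι × ι, (if p.1 = p.2 then 0 else X p.1 p.2 * (s p.2)⁻¹) •
      Xel bar s p.1 p.2) ∈ L := by
    refine Submodule.sum_mem _ fun p _ => ?_
    by_cases h1 : p.1 = p.2
    · rw [if_pos h1, zero_smul]; exact L.zero_mem
    · rw [if_neg h1]
      by_cases h2 : X p.1 p.2 = 0
      · rw [h2, zero_mul, zero_smul]; exact L.zero_mem
      · exact L.smul_mem _ ((hXR _ _ h2).resolve_left h1)
  have hsum : (∑ p : ι × ι, (if p.1 = p.2 then 0 else X p.1 p.2 * (s p.2)⁻¹) •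
      Xel bar s p.1 p.2) = (2 : K) • (X - Matrix.diagonal (fun i => X i i)) := by
    ext a b
    rw [Matrix.sum_apply, Matrix.smul_apply, Matrix.sub_apply, smul_eq_mul]
    have h1 : ∀ p : ι × ι, ((if p.1 = p.2 then 0 else X p.1 p.2 * (s p.2)⁻¹) •
        Xel bar s p.1 p.2) a b =
        (if p = (a, b) then (if a = b then 0 else X a b) else 0) +
        (if p = (bar b, bar a) then (if a = b then 0 else X a b) else 0) := by
      rintro ⟨m, n⟩
      rw [Matrix.smul_apply, smul_eq_mul]
      unfold Xel
      simp only [Prod.mk.injEq]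
      have e1 : (a = m ∧ b = n) ↔ (m = a ∧ n = b) :=
        ⟨fun h => ⟨h.1.symm, h.2.symm⟩, fun h => ⟨h.1.symm, h.2.symm⟩⟩
      have e2 : (a = bar n ∧ b = bar m) ↔ (m = bar b ∧ n = bar a) :=
        ⟨fun h => ⟨by rw [h.2, hbar], by rw [h.1, hbar]⟩,
          fun h => ⟨by rw [h.2, hbar], by rw [h.1, hbar]⟩⟩
      simp only [e1, e2]
      rw [mul_sub]
      have f1 : ((if m = n then 0 else X m n * (s n)⁻¹) * (if m = a ∧ n = b then s n else 0)) =
          (if m = a ∧ n = b then (if a = b then 0 else X a b) else 0) := by
        by_cases c : m = a ∧ n = b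
        · obtain ⟨rfl, rfl⟩ := c
          simp only [and_self, if_true]
          by_cases c2 : m = n
          · rw [if_pos c2, if_pos c2, zero_mul]
          · rw [if_neg c2, if_neg c2, mul_assoc, inv_mul_cancel₀ (hs n), mul_one]
        · rw [if_neg c, if_neg c, mul_zero]
      have f2 : - ((if m = n then 0 else X m n * (s n)⁻¹) *
          (if m = bar b ∧ n = bar a then s m else 0)) =
          (if m = bar b ∧ n = bar a then (if a = b then 0 else X a b) else 0) := by
        by_cases c : m = bar b ∧ n = bar a
        · obtain ⟨rfl, rfl⟩ := c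
          simp only [and_self, if_true]
          by_cases c2 : a = b
          · subst c2
            simp only [if_true, zero_mul, neg_zero]
          · have c3 : ¬ bar b = bar a := fun h => c2 (by rw [← hbar a, ← h, hbar])
            rw [if_neg c3, if_neg c2]
            have hx := hX a b c2
            have : - (X (bar b) (bar a) * (s (bar a))⁻¹ * s (bar b)) =
                - ((s b * X (bar b) (bar a)) * (s a)⁻¹) := by
              rw [hsb, hsb, inv_neg]
              ring
            rw [this, hx]
            have ha := hs a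
            field_simp
            try ring
        · rw [if_neg c, if_neg c, mul_zero, neg_zero]
      rw [sub_eq_add_neg, f1, f2]
    rw [Finset.sum_congr rfl (fun p _ => h1 p), Finset.sum_add_distrib, Finset.sum_ite_eq',
      Finset.sum_ite_eq']
    simp only [Finset.mem_univ, if_true]
    by_cases c : a = b
    · subst c
      simp
    · rw [if_neg c, Matrix.diagonal_apply_ne _ c]
      ring
  rw [hsum] at hmem
  have h2 : X = (2 : K)⁻¹ • ((2 : K) • (X - Matrix.diagonal (fun i => X i i))) +
      Matrix.diagonal (fun i => X i i) := by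
    rw [smul_smul, inv_mul_cancel₀ two_ne_zero, one_smul, sub_add_cancel]
  rw [h2]
  exact L.add_mem (L.smul_mem _ hmem) hX0

end Pool.Agent.Helper68.LM
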